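import Pool.Agent.J6H36.LF.Stm

/-!
# Module JOINT of helper36 (project LF, MP_e2821c_ag)

Algebraic independence of the coordinates implies independence of the homomorphisms.
-/

set_option autoImplicit false

universe u

namespace Pool.Agent.J6H76.LF

open Set

/-- an element which is algebraic over `P[t]` is mapped to an element which is algebraic over
`k[φ t]` -/
theorem alg_map {P : Type} [Field P] {k Ω L : Type u} [Field k] [Field Ω] [Field L]
    [Algebra P k] [Algebra P Ω] [Algebra k Ω] [IsScalarTower P k Ω] [Algebra P L]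
    {d : ℕ} {t : Fin d → L} {x : L} (hx : IsAlgebraic (Algebra.adjoin P (range t)) x)
    (g : L →ₐ[P] Ω) : IsAlgebraic (Algebra.adjoin k (range fun j => g (t j))) (g x) := by
  have hmem : ∀ r ∈ Algebra.adjoin P (range t),
      g r ∈ Algebra.adjoin k (range fun j => g (t j)) := by
    intro r hr
    induction hr using Algebra.adjoin_induction with
    | mem y hy =>
      obtain ⟨j, rfl⟩ := hy
      exact Algebra.subset_adjoin ⟨j, rfl⟩
    | algebraMap c =>
      rw [AlgHom.commutes, IsScalarTower.algebraMap_apply P k Ω]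
      exact (Algebra.adjoin k (range fun j => g (t j))).algebraMap_mem _
    | add y z _ _ h1 h2 =>
      rw [map_add]
      exact Subalgebra.add_mem _ h1 h2
    | mul y z _ _ h1 h2 =>
      rw [map_mul]
      exact Subalgebra.mul_mem _ h1 h2
  let f : Algebra.adjoin P (range t) →+* Algebra.adjoin k (range fun j => g (t j)) :=
    ((g : L →+* Ω).comp (algebraMap (Algebra.adjoin P (range t)) L)).codRestrict
      (Algebra.adjoin k (range fun j => g (t j))) fun r => hmem r r.2
  have hf : Function.Injective f := by
    intro r s h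
    have h1 : g r = g s := congrArg Subtype.val h
    exact Subtype.ext (g.toRingHom.injective h1)
  refine IsAlgebraic.ringHom_of_comp_eq (R := Algebra.adjoin P (range t)) (A := L)
    (S := Algebra.adjoin k (range fun j => g (t j))) (B := Ω) f (g : L →+* Ω) hx hf ?_
  ext y
  rfl

theorem t_JOINT : Pool.Agent.J6H36.LF.S_JOINT.{u} := by
  intro P _ k Ω L _ _ _ _ _ _ _ _ _ d t halg I φ hind a S ha
  let SI : Set (I × Fin d) := {p | p.1 ∈ S}
  let TI : Set (I × Fin d) := {p | p.1 = a}
  have hdis : Disjoint SI TI := by
    rw [Set.disjoint_left]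
    intro p hp hq
    have hp' : p.1 ∈ S := hp
    have hq' : p.1 = a := hq
    exact ha (hq' ▸ hp')
  let E : IntermediateField k Ω :=
    IntermediateField.adjoin k ((fun p : I × Fin d => φ p.1 (t p.2)) '' SI)
  have h2 : AlgebraicIndependent E (fun j : ULift.{u} (Fin d) => φ a (t j.down)) := by
    have h3 := (hind.adjoin_of_disjoint hdis).comp
      (fun j : ULift.{u} (Fin d) => (⟨(a, j.down), rfl⟩ : TI))
      (fun j j' h => by
        have := congrArg Subtype.val h
        have h4 : j.down = j'.down := (Prod.mk.inj this).2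
        exact ULift.ext _ _ h4)
    exact IntermediateField.algebraicIndependent_adjoin_iff.2 h3
  refine ⟨(algebraicClosure E Ω).restrictScalars k, ?_, ULift.{u} (Fin d), inferInstance,
    fun j => φ a (t j.down), ?_, ?_, ?_⟩
  · exact (algebraicClosure.isAlgClosure E Ω).isAlgClosed
  · exact h2.algebraicClosure
  · intro b hb x
    change φ b x ∈ algebraicClosure E Ω
    rw [mem_algebraicClosure_iff, IntermediateField.isAlgebraic_adjoin_iff]
    refine (alg_map (k := k) (halg x) (φ b)).adjoin_of_forall_isAlgebraic fun z hz => (hz.2 ?_).elim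
    obtain ⟨j, rfl⟩ := hz.1
    exact ⟨(b, j), hb, rfl⟩
  · intro x
    have h3 := alg_map (k := k) (halg x) (φ a)
    have h4 : (range fun j : Fin d => φ a (t j)) =
        range fun j : ULift.{u} (Fin d) => φ a (t j.down) := by
      ext z
      exact ⟨fun ⟨j, hj⟩ => ⟨⟨j⟩, hj⟩, fun ⟨j, hj⟩ => ⟨j.down, hj⟩⟩
    rw [h4] at h3
    exact h3

end Pool.Agent.J6H76.LF
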